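import Pool.Agent.W223.PL.Stms

/-! SQR: the square case. -/

namespace Pool.Agent.W155.PL.SQR

open Polynomial Pool.Agent.W223.PL

lemma natDegree_G {A B : ℤ[X]} {d₀ : ℤ} (hA : A ≠ 0) :
    (B ^ 2 - (C d₀ + X) * A ^ 2).natDegree =
      max (2 * B.natDegree) (2 * A.natDegree + 1) := by
  have hX : (C d₀ + X : ℤ[X]).natDegree = 1 := by
    rw [add_comm]; exact natDegree_X_add_C d₀
  have hX0 : (C d₀ + X : ℤ[X]) ≠ 0 := by
    intro h; rw [h] at hX; simp at hX
  have h1 : ((C d₀ + X) * A ^ 2 : ℤ[X]).natDegree = 2 * A.natDegree + 1 := by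
    rw [natDegree_mul hX0 (pow_ne_zero 2 hA), hX, natDegree_pow]; omega
  have h2 : (B ^ 2 : ℤ[X]).natDegree = 2 * B.natDegree := by rw [natDegree_pow]
  rcases lt_or_gt_of_ne (show 2 * B.natDegree ≠ 2 * A.natDegree + 1 by omega) with h | h
  · rw [natDegree_sub_eq_right_of_natDegree_lt (by rw [h1, h2]; exact h), h1]
    omega
  · rw [natDegree_sub_eq_left_of_natDegree_lt (by rw [h1, h2]; exact h), h2]
    omega

theorem t : StmtSQR := by
  intro m A B N d₀ R hA hN hR hAm hBm hns 𝒯 g hg hG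
  unfold NonSq at hns
  push Not at hns
  obtain ⟨P₁, P₂, h0, heq⟩ := hns
  set G := C N * (B ^ 2 - (C d₀ + X) * A ^ 2) with hGdef
  have hP2 : P₂ ≠ 0 := by
    rintro rfl
    have : P₁ ^ 2 = 0 := by
      have := heq
      simpa using this
    have : P₁ = 0 := by simpa using this
    simp [this] at h0
  have heq' : P₁ ^ 2 = P₂ ^ 2 * G := sub_eq_zero.mp heq
  have hdvd : P₂ ∣ P₁ := by
    have : P₂ ^ 2 ∣ P₁ ^ 2 := ⟨G, heq'⟩
    exact (IsIntegrallyClosed.pow_dvd_pow_iff (two_ne_zero)).mp this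
  obtain ⟨J, hJ⟩ := hdvd
  have hJG : J ^ 2 = G := by
    have : P₂ ^ 2 * J ^ 2 = P₂ ^ 2 * G := by rw [← heq', hJ]; ring
    exact mul_left_cancel₀ (pow_ne_zero 2 hP2) this
  have hdegG : G.natDegree = max (2 * B.natDegree) (2 * A.natDegree + 1) := by
    rw [hGdef, natDegree_C_mul hN, natDegree_G hA]
  have hdegJ : 2 * J.natDegree = max (2 * B.natDegree) (2 * A.natDegree + 1) := by
    rw [← hdegG, ← hJG, natDegree_pow]
  have hJ1 : 1 ≤ J.natDegree := by omega
  have hJm : J.natDegree ≤ m := by omega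
  set S : Finset ℤ := (R.natAbs.divisors.image (fun δ : ℕ => N * (δ : ℤ))) ∪
    (R.natAbs.divisors.image (fun δ : ℕ => -(N * (δ : ℤ)))) with hS
  have hScard : S.card ≤ 2 * R.natAbs.divisors.card := by
    refine (Finset.card_union_le _ _).trans ?_
    have h1 := Finset.card_image_le (s := R.natAbs.divisors) (f := fun δ : ℕ => N * (δ : ℤ))
    have h2 := Finset.card_image_le (s := R.natAbs.divisors) (f := fun δ : ℕ => -(N * (δ : ℤ)))
    omega
  have hmaps : ∀ τ ∈ 𝒯, J.eval τ ∈ S := by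
    intro τ hτ
    have h1 : (J.eval τ) ^ 2 = (N * g τ) ^ 2 := by
      rw [hG τ hτ, ← hJG, eval_pow]
    have hmem : (g τ).natAbs ∈ R.natAbs.divisors := by
      rw [Nat.mem_divisors]
      exact ⟨Int.natAbs_dvd_natAbs.mpr (hg τ hτ), by simpa using hR⟩
    have h2 : J.eval τ = N * g τ ∨ J.eval τ = -(N * g τ) := sq_eq_sq_iff_eq_or_eq_neg.mp h1
    have h3 : g τ = ((g τ).natAbs : ℤ) ∨ g τ = -((g τ).natAbs : ℤ) := Int.natAbs_eq (g τ)
    rw [hS, Finset.mem_union, Finset.mem_image, Finset.mem_image]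
    rcases h2 with h2 | h2 <;> rcases h3 with h3 | h3
    · left; exact ⟨_, hmem, by rw [h2, ← h3]⟩
    · right; refine ⟨_, hmem, ?_⟩; rw [h2]; conv_rhs => rw [h3]
      ring
    · right; exact ⟨_, hmem, by rw [h2, ← h3]⟩
    · left; refine ⟨_, hmem, ?_⟩; rw [h2]; conv_rhs => rw [h3]
      ring
  have hfib : ∀ v ∈ S, (𝒯.filter (fun τ => J.eval τ = v)).card ≤ m := by
    intro v _
    have hne : J - C v ≠ 0 := by
      intro h
      have : J = C v := sub_eq_zero.mp h
      rw [this, natDegree_C] at hJ1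
      omega
    have hdeg : (J - C v).natDegree = J.natDegree := natDegree_sub_C
    have hsub : (𝒯.filter (fun τ => J.eval τ = v)) ⊆ (J - C v).roots.toFinset := by
      intro τ hτ
      rw [Finset.mem_filter] at hτ
      rw [Multiset.mem_toFinset, mem_roots hne, IsRoot.def, eval_sub, eval_C, hτ.2, sub_self]
    calc (𝒯.filter (fun τ => J.eval τ = v)).card ≤ (J - C v).roots.toFinset.card :=
          Finset.card_le_card hsub
      _ ≤ Multiset.card (J - C v).roots := Multiset.toFinset_card_le _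
      _ ≤ (J - C v).natDegree := card_roots' _
      _ ≤ m := by rw [hdeg]; exact hJm
  have := Finset.card_le_mul_card_image_of_maps_to hmaps m hfib
  calc 𝒯.card ≤ m * S.card := this
    _ ≤ m * (2 * R.natAbs.divisors.card) := Nat.mul_le_mul_left _ hScard
    _ ≤ 4 * m * R.natAbs.divisors.card := by nlinarith [Nat.zero_le (m * R.natAbs.divisors.card)]

end Pool.Agent.W155.PL.SQR

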